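import Mathlib
import Pool.Agent.H560.SQ.Stm
import Pool.Agent.H985.Chow.KeyM
import Pool.Agent.H524.LD.ParH

/-!
# The key formula for `deg a > deg b`: the parts at infinity (helper524)
-/

set_option linter.unusedSectionVars false

namespace Pool.Agent.H524.SQ

open Polynomial
open Pool.Agent.H985.Chow
open Pool.Agent.H524.LD
open Pool.Agent.H560.SQ (S_rtI phi S_keyI)
open Pool.Agent.H524 (red emb frobLift AC vdm two_dvd_iff isUnit_iff_red two_ne_zero_witt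
  red_frobLift frobLift_emb red_emb)

/-- The residue theorem with a constant. -/
lemma rtI_scaled (hrt : S_rtI) {R : Type} [CommRing R] [IsDomain R] (k : ℕ) (hk : 1 ≤ k) {m : ℕ}
    (r : Fin m → R) (ch : R) (E G₁ G₂ N₁ N₂ P₁ P₂ B : R[X]) (Bh : Fin m → R[X])
    (c₁ c₂ : Fin m → R[X]) (hB : B = C ch * (E * ∏ i, (X - C (r i))))
    (hBh : ∀ i, Bh i = C ch * (E * ∏ j ∈ Finset.univ.erase i, (X - C (r j))))
    (hE : E.Monic) (hG₁ : G₁.Monic) (hG₂ : G₂.Monic)
    (hr : ∀ i j, i ≠ j → IsUnit (r i - r j)) (hEr : ∀ i, IsUnit (E.eval (r i)))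
    (hEG₁ : IsCoprime E G₁) (hEG₂ : IsCoprime E G₂)
    (hG₁r : ∀ i, IsUnit (G₁.eval (r i))) (hG₂r : ∀ i, IsUnit (G₂.eval (r i)))
    (hG₁d : 1 ≤ G₁.natDegree) (hG₂d : 1 ≤ G₂.natDegree)
    (hP₁ : G₁ ∣ N₁ - P₁ * B ^ k) (hP₂ : G₂ ∣ N₂ - P₂ * B ^ k)
    (hcr : E ^ k ∣ N₁ * G₂ - N₂ * G₁)
    (hc₁ : ∀ i, (c₁ i).natDegree < k) (hc₂ : ∀ i, (c₂ i).natDegree < k)
    (h₁ : ∀ i, (X - C (r i)) ^ k ∣ c₁ i * Bh i ^ k * G₁ - N₁)
    (h₂ : ∀ i, (X - C (r i)) ^ k ∣ c₂ i * Bh i ^ k * G₂ - N₂) :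
    ch ^ k * (lc G₁ P₁ - lc G₂ P₂) = lc ((E * ∏ i, (X - C (r i))) ^ k * G₁) N₁ -
      lc ((E * ∏ i, (X - C (r i))) ^ k * G₂) N₂ -
      ch ^ k * ∑ i, ((c₁ i).coeff (k - 1) - (c₂ i).coeff (k - 1)) := by
  have hBk : B ^ k = C (ch ^ k) * (E * ∏ i, (X - C (r i))) ^ k := by
    rw [hB, mul_pow, C_pow]
  have key := hrt R k hk (Fin m) r E G₁ G₂ N₁ N₂ (C (ch ^ k) * P₁) (C (ch ^ k) * P₂)
    (fun i => C (ch ^ k) * c₁ i) (fun i => C (ch ^ k) * c₂ i) hE hG₁ hG₂ hr hEr hEG₁ hEG₂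
    hG₁r hG₂r hG₁d hG₂d
    (by
      have : C (ch ^ k) * P₁ * (E * ∏ i, (X - C (r i))) ^ k = P₁ * B ^ k := by rw [hBk]; ring
      rw [this]; exact hP₁)
    (by
      have : C (ch ^ k) * P₂ * (E * ∏ i, (X - C (r i))) ^ k = P₂ * B ^ k := by rw [hBk]; ring
      rw [this]; exact hP₂)
    hcr
    (fun i => lt_of_le_of_lt (natDegree_C_mul_le _ _) (hc₁ i))
    (fun i => lt_of_le_of_lt (natDegree_C_mul_le _ _) (hc₂ i))
    (by
      intro i
      have : C (ch ^ k) * c₁ i * (E * ∏ j ∈ Finset.univ.erase i, (X - C (r j))) ^ k =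
          c₁ i * Bh i ^ k := by rw [hBh, mul_pow, C_pow]; ring
      rw [this]; exact h₁ i)
    (by
      intro i
      have : C (ch ^ k) * c₂ i * (E * ∏ j ∈ Finset.univ.erase i, (X - C (r j))) ^ k =
          c₂ i * Bh i ^ k := by rw [hBh, mul_pow, C_pow]; ring
      rw [this]; exact h₂ i)
  simp only [lc_C_mul, coeff_C_mul, ← mul_sub, ← Finset.mul_sum] at key
  exact key

/-- In characteristic two: no residue at infinity for `P / g²` if `P' = 0`. -/
lemma lc_der_zero {F : Type} [Field F] [CharP F 2] {g P : F[X]} (hg : g.Monic)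
    (hP : derivative P = 0) : lc (g ^ 2) P = 0 := by
  have h2 : (2 : F) = 0 := by
    have := CharP.cast_eq_zero F 2
    exact_mod_cast this
  have h2X : (2 : F[X]) = 0 := by
    have h3 : (2 : F[X]) = C 2 := by rw [map_ofNat]
    rw [h3, h2, C_0]
  have hg2 : (g ^ 2).Monic := hg.pow 2
  obtain ⟨Q, hQ⟩ : ∃ Q, Q = P /ₘ (g ^ 2) := ⟨_, rfl⟩
  obtain ⟨S, hS⟩ : ∃ S, S = P %ₘ (g ^ 2) := ⟨_, rfl⟩
  have e : S + g ^ 2 * Q = P := by
    rw [hS, hQ]; exact modByMonic_add_div P (g ^ 2)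
  have hd2 : derivative (g ^ 2) = 0 := by
    rw [derivative_pow]
    simp only [Nat.cast_ofNat, map_ofNat]
    rw [h2X]; ring
  have e' : derivative S + g ^ 2 * derivative Q = 0 := by
    rw [← hP, ← e, derivative_add, derivative_mul, hd2]; ring
  have hSdeg : S.degree < (g ^ 2).degree := by
    rw [hS]; exact degree_modByMonic_lt P hg2
  have hS' : derivative S = 0 := by
    by_cases hQ0 : derivative Q = 0
    · rw [hQ0, mul_zero, add_zero] at e'; exact e'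
    · exfalso
      have h3 : derivative S = -(g ^ 2 * derivative Q) := by linear_combination e'
      have h4 : (derivative S).degree = (g ^ 2).degree + (derivative Q).degree := by
        rw [h3, degree_neg, degree_mul]
      have h5 : (derivative S).degree < (g ^ 2).degree :=
        lt_of_le_of_lt degree_derivative_le hSdeg
      have h6 : (0 : WithBot ℕ) ≤ (derivative Q).degree := by
        rw [zero_le_degree_iff]; exact hQ0
      rw [h4, degree_eq_natDegree hg2.ne_zero, degree_eq_natDegree hQ0] at h5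
      rw [← Nat.cast_add, Nat.cast_lt] at h5
      omega
  rw [lc, ← hS]
  rcases Nat.eq_zero_or_pos g.natDegree with h0 | h0
  · have hg1 : g = 1 := hg.natDegree_eq_zero.mp h0
    have : S = 0 := by rw [hS, hg1, one_pow, modByMonic_one]
    rw [this, coeff_zero]
  · rw [hg.natDegree_pow]
    have h7 := congrArg (fun q => coeff q (2 * g.natDegree - 2)) hS'
    simp only [coeff_zero, coeff_derivative] at h7
    rw [show 2 * g.natDegree - 2 + 1 = 2 * g.natDegree - 1 by omega] at h7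
    have h8 : ((2 * g.natDegree - 2 : ℕ) : F) + 1 = 1 := by
      have h9 : ((2 * g.natDegree - 2 : ℕ) : F) = 0 := by
        rw [show 2 * g.natDegree - 2 = 2 * (g.natDegree - 1) by omega]
        push_cast
        rw [h2, zero_mul]
      rw [h9, zero_add]
    rw [h8, mul_one] at h7
    exact h7

variable {K : Type} [Field K] [Fintype K] [CharP K 2]

/-- The terms at infinity for `k = 2`. -/
lemma inf_two (c : WittVector 2 K) (A₁ A₂ D B E : (WittVector 2 K)[X]) {d β : ℕ}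
    (hB : B = C c * E) (hA₁ : A₁.Monic) (hA₁d : A₁.natDegree = d) (hA₂ : A₂.Monic)
    (hA₂d : A₂.natDegree = d) (hD : A₂ = A₁ + D) (hE : E.Monic) (hEd : E.natDegree = β)
    (hd : β < d) (hDd : D.natDegree ≤ β) :
    ∃ t : WittVector 2 K, lc (E ^ 2 * (A₁ ^ 2 + X * B ^ 2)) ((Kp A₁ B) ^ 2) -
      lc (E ^ 2 * (A₂ ^ 2 + X * B ^ 2)) ((Kp A₂ B) ^ 2) = 4 * t := by
  rw [infty_two hB hA₁ hE hA₁d hEd hd, infty_two hB hA₂ hE hA₂d hEd hd]
  have h1 : (derivative A₂) ^ 2 = (derivative A₁) ^ 2 + (C 2 * (derivative A₁ * derivative D) +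
      (derivative D) ^ 2) := by
    rw [hD, derivative_add, map_ofNat]; ring
  have h2 : lc (E ^ 2) ((derivative D) ^ 2) = 0 := by
    rcases Nat.eq_zero_or_pos β with h0 | h0
    · have hE1 : E = 1 := hE.natDegree_eq_zero.mp (by omega)
      rw [hE1, one_pow]
      exact RT.lc_dvd monic_one _ (one_dvd _)
    · apply RT.lc_small (hE.pow 2)
      rw [hE.natDegree_pow, hEd]
      have h3 : (derivative D).natDegree ≤ β - 1 :=
        (natDegree_derivative_le D).trans (by omega)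
      have h4 := natDegree_pow_le_of_le 2 h3
      omega
  have h3 : (2 : WittVector 2 K) ∣ lc (E ^ 2) (derivative A₁ * derivative D) := by
    rw [two_dvd_iff, ← lc_map (red K) (hE.pow 2), Polynomial.map_pow, Polynomial.map_mul,
      ← derivative_map, ← derivative_map]
    apply lc_der_zero (hE.map _)
    rw [derivative_mul, deriv_deriv, deriv_deriv]
    ring
  obtain ⟨t, ht⟩ := h3
  refine ⟨-t, ?_⟩
  rw [h1, RT.lc_add, RT.lc_add, lc_C_mul, h2, ht]
  ring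

/-- The terms at infinity for `k = 4`. -/
lemma inf_four (c : K) (hc : c ≠ 0) (a₁ a₂ e : K[X]) {d : ℕ}
    (ha₁ : a₁.Monic) (hd₁ : a₁.natDegree = d) (ha₂ : a₂.Monic) (hd₂ : a₂.natDegree = d)
    (he : e.Monic) (hd : e.natDegree < d) :
    lc (e ^ 4 * (a₁ ^ 2 + X * (C c * e) ^ 2)) ((Kp a₁ (C c * e)) ^ 3) -
      lc (e ^ 4 * (a₂ ^ 2 + X * (C c * e) ^ 2)) ((Kp a₂ (C c * e)) ^ 3) =
      c ^ 4 * (phi c e a₁ - phi c e a₂) := by
  rw [infty_three rfl ha₁ he hd₁ rfl hd, infty_three rfl ha₂ he hd₂ rfl hd]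
  have h10 : c * c⁻¹ = 1 := mul_inv_cancel₀ hc
  have e1 : ∀ a : K[X], c ^ 4 * phi c e a = lc (e ^ 4) (Kp a (C c * e) * (derivative a) ^ 2) +
      c ^ 2 * phe e a := by
    intro a
    have e2 : phi c e a = c⁻¹ ^ 4 * lc (e ^ 4) (Kp a (C c * e) * (derivative a) ^ 2) +
        c⁻¹ ^ 2 * phe e a := rfl
    rw [e2]
    linear_combination (lc (e ^ 4) (Kp a (C c * e) * (derivative a) ^ 2) *
      ((c * c⁻¹) ^ 3 + (c * c⁻¹) ^ 2 + c * c⁻¹ + 1) +
      c ^ 2 * phe e a * (c * c⁻¹ + 1)) * h10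
  rw [mul_sub, e1, e1]
  ring

end Pool.Agent.H524.SQ
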