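import Mathlib
import Pool.Agent.H524.SQ.KeyA

/-!
# The key formula for `deg a > deg b` (helper524)
-/

set_option linter.unusedSectionVars false

namespace Pool.Agent.H524.SQ

open Polynomial
open Pool.Agent.H985.Chow
open Pool.Agent.H524.LD
open Pool.Agent.H560.SQ (S_rtI phi S_keyI)
open Pool.Agent.H524 (red emb frobLift AC vdm two_dvd_iff isUnit_iff_red two_ne_zero_witt
  red_frobLift frobLift_emb red_emb)

variable {K : Type} [Field K] [Fintype K] [CharP K 2]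

lemma key_coreI (hs : S_sgn) (hrt : S_rtI) (d : ℕ) (c : WittVector 2 K)
    (hc : red K c ≠ 0) (A₁ A₂ E H U B : (WittVector 2 K)[X]) (hA₂ : A₂ = A₁ + E ^ 5 * U)
    (hB : B = C c * (E * H)) (hE : E.Monic) (hH : H.Monic)
    (hcop : IsCoprime (E.map (red K)) (H.map (red K)))
    (hsq : Squarefree (H.map (red K)))
    (hA₁m : A₁.Monic) (hA₁d : A₁.natDegree = d) (hA₂m : A₂.Monic) (hA₂d : A₂.natDegree = d)
    (hEHd : (E * H).natDegree < d)
    (hc₁ : IsCoprime (A₁.map (red K)) ((E * H).map (red K)))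
    (hc₂ : IsCoprime (A₂.map (red K)) ((E * H).map (red K)))
    (hD1 : (E ^ 5 * U).natDegree ≤ (E * H).natDegree) :
    ∃ (m : ℕ) (ρ : Fin m → AC K) (x : AC K), Function.Injective ρ ∧
      (H.map (red K)).map (algebraMap K (AC K)) = ∏ i, (X - C (ρ i)) ∧
      (∀ i, ∃ j, (ρ i) ^ Fintype.card K = ρ j) ∧
      x ^ 2 + x = ∑ i, (yloc (A₁.map (red K)) (B.map (red K)) (ρ i) +
          yloc (A₂.map (red K)) (B.map (red K)) (ρ i)) +
        (∑ i, (yloc (A₁.map (red K)) (B.map (red K)) (ρ i) +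
          yloc (A₂.map (red K)) (B.map (red K)) (ρ i))) ^ 2 +
        (∑ i, (Wr (A₁.map (red K)) (B.map (red K)) (ρ i) +
          Wr (A₂.map (red K)) (B.map (red K)) (ρ i)) +
        algebraMap K (AC K) (phi (red K c) ((E * H).map (red K)) (A₁.map (red K)) +
          phi (red K c) ((E * H).map (red K)) (A₂.map (red K)))) ∧
      ((mob ((A₁ ^ 2 + X * B ^ 2).map (red K)) * mob ((A₂ ^ 2 + X * B ^ 2).map (red K)) = 1 ∧
        x ^ Fintype.card K = x) ∨
       (mob ((A₁ ^ 2 + X * B ^ 2).map (red K)) * mob ((A₂ ^ 2 + X * B ^ 2).map (red K)) = -1 ∧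
        x ^ Fintype.card K = x + 1)) := by
  classical
  have h2AC : (2 : AC K) = 0 := two_AC
  obtain ⟨n, hnd⟩ : ∃ n, n = 2 * d := ⟨_, rfl⟩
  have hn : 2 ≤ n := by omega
  have hEHm : (E * H).Monic := hE.mul hH
  obtain ⟨hm₁, hd₁⟩ := G_monic hB hA₁m hA₁d rfl hEHd
  obtain ⟨hm₂, hd₂⟩ := G_monic hB hA₂m hA₂d rfl hEHd
  rw [← hnd] at hd₁ hd₂
  -- the nodes
  obtain ⟨r, hr, hrinj, hrperm, -⟩ := hs K H.natDegree H hH rfl hsq
  -- coprimality
  have hcu : ∀ p : K[X], IsCoprime p (C (red K c)) := fun p =>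
      ⟨0, C (red K c)⁻¹, by rw [zero_mul, zero_add, ← C_mul, inv_mul_cancel₀ hc, C_1]⟩
  have hBred : B.map (red K) = C (red K c) * (E * H).map (red K) := by
    rw [hB, Polynomial.map_mul, map_C]
  have hab₁ : IsCoprime (A₁.map (red K)) (B.map (red K)) := by
    rw [hBred]; exact (hcu _).mul_right hc₁
  have hab₂ : IsCoprime (A₂.map (red K)) (B.map (red K)) := by
    rw [hBred]; exact (hcu _).mul_right hc₂
  -- the data
  obtain ⟨V₁, Y₁, N₁, ℓ1₁, ℓ2₁, w₁, hV₁, hV₁0, hY₁, hY₁0, hVY₁, hN₁r, hN₁, hL₁, hl₁, hco₁⟩ :=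
    side hs n (by omega) A₁ B hm₁ hd₁ hab₁
  obtain ⟨V₂, Y₂, N₂, ℓ1₂, ℓ2₂, w₂, hV₂, hV₂0, hY₂, hY₂0, hVY₂, hN₂r, hN₂, hL₂, hl₂, hco₂⟩ :=
    side hs n (by omega) A₂ B hm₂ hd₂ hab₂
  obtain ⟨P₁, p₁, c2₁, c4₁, v₁, hP₁, hP₁d, hp₁, hp₁d, h21d, h21, h21c, h41d, h41, hloc₁,
    hEG₁, hEg₁, hG₁r, hg₁r⟩ := one_data c hc A₁ E H B hB hcop hc₁ r hr hrinj ℓ1₁
      (red (AC K) ℓ2₁) hco₁ hL₁ hl₁
  obtain ⟨P₂, p₂, c2₂, c4₂, v₂, hP₂, hP₂d, hp₂, hp₂d, h22d, h22, h22c, h42d, h42, hloc₂,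
    hEG₂, hEg₂, hG₂r, hg₂r⟩ := one_data c hc A₂ E H B hB hcop hc₂ r hr hrinj ℓ1₂
      (red (AC K) ℓ2₂) hco₂ hL₂ hl₂
  -- the nodes again
  have hHred : (H.map (red K)).map (algebraMap K (AC K)) = ∏ i, (X - C (red (AC K) (r i))) := by
    rw [← red_map_map, hr, Polynomial.map_prod]
    simp only [Polynomial.map_sub, map_X, map_C]
  have heρ : ∀ i, ((E.map (red K)).map (algebraMap K (AC K))).eval (red (AC K) (r i)) ≠ 0 := by
    intro i
    refine coprime_eval hcop _ ?_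
    rw [hHred, eval_prod]
    exact Finset.prod_eq_zero (Finset.mem_univ i) (by simp)
  have hch0 : red (AC K) (emb K c) ≠ 0 := by
    rw [red_emb]
    exact (_root_.map_ne_zero _).mpr hc
  have hdvd2 := dvd_cross A₁ B E U 2
  have hdvd3 := dvd_cross A₁ B E U 3
  rw [← hA₂] at hdvd2 hdvd3
  -- λ₁ = λ₂
  have hlam : lc ((A₁ ^ 2 + X * B ^ 2).map (emb K)) ((Kp A₁ B).map (emb K)) =
      lc ((A₂ ^ 2 + X * B ^ 2).map (emb K)) ((Kp A₂ B).map (emb K)) := by
    rw [lc_map (emb K) hm₁, lc_map (emb K) hm₂, infty_one hB hA₁m hA₁d rfl hEHd,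
      infty_one hB hA₂m hA₂d rfl hEHd]
  -- the residue theorem, `k = 2`
  have a1 : emb K c ≠ 0 := fun h0 => hch0 (by rw [h0, map_zero])
  have a2 : B.map (emb K) = C (emb K c) * (E.map (emb K) * ∏ i, (X - C (r i))) := by
    rw [hB, Polynomial.map_mul, map_C, Polynomial.map_mul, hr]
  have a3 : ∀ i, Bq (emb K c) (E.map (emb K)) r i =
      C (emb K c) * (E.map (emb K) * ∏ j ∈ Finset.univ.erase i, (X - C (r j))) := by
    intro i; rw [Bq]
  have a4 : ∀ i j, i ≠ j → IsUnit (r i - r j) := fun i j hij => isUnit_iff_red _ (by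
      rw [map_sub, sub_ne_zero]; exact fun h0 => hij (hrinj h0))
  have a5 : ∀ i, IsUnit ((E.map (emb K)).eval (r i)) :=
    fun i => isUnit_iff_red _ (by rw [red_map_eval]; exact heρ i)
  have a6 : 1 ≤ ((A₁ ^ 2 + X * B ^ 2).map (emb K)).natDegree := by
    rw [hm₁.natDegree_map, hd₁]; omega
  have a7 : 1 ≤ ((A₂ ^ 2 + X * B ^ 2).map (emb K)).natDegree := by
    rw [hm₂.natDegree_map, hd₂]; omega
  have a8 : (E.map (emb K)) ^ 2 ∣ ((Kp A₁ B).map (emb K)) ^ 2 * ((A₂ ^ 2 + X * B ^ 2).map (emb K)) -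
      ((Kp A₂ B).map (emb K)) ^ 2 * ((A₁ ^ 2 + X * B ^ 2).map (emb K)) := by
    rw [cross_map]
    refine dvd_trans ?_ (Polynomial.map_dvd (emb K) hdvd2)
    rw [Polynomial.map_pow]
    exact pow_dvd_pow _ (by norm_num)
  have t1 := rtI_scaled (R := WittVector 2 (AC K)) hrt 2 one_le_two r (emb K c)
  have t3 := t1 (E.map (emb K))
  have t4 := t3 ((A₁ ^ 2 + X * B ^ 2).map (emb K)) ((A₂ ^ 2 + X * B ^ 2).map (emb K))
  have t5 := t4 (((Kp A₁ B).map (emb K)) ^ 2) (((Kp A₂ B).map (emb K)) ^ 2) P₁ P₂ (B.map (emb K))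
  have t6 := t5 (fun i => Bq (emb K c) (E.map (emb K)) r i) c2₁ c2₂
  have t7 := t6 a2
  have t8 := t7 a3 (hE.map _) (hm₁.map _) (hm₂.map _)
  have t9 := t8 a4 a5 hEG₁ hEG₂ hG₁r hG₂r
  have t10 := t9 a6 a7 hP₁d hP₂d
  have t11 := t10 a8
  have t13 := t11 h21d h22d h21
  have hrt2 := t13 h22
  clear t1 t3 t4 t5 t6 t7 t8 t9 t10 t11 t13
  -- the residue theorem, `k = 4`
  have b2 : (B.map (red K)).map (algebraMap K (AC K)) = C (algebraMap K (AC K) (red K c)) *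
      (((E.map (red K)).map (algebraMap K (AC K))) * ∏ i, (X - C (red (AC K) (r i)))) := by
    rw [hB, Polynomial.map_mul, map_C, Polynomial.map_mul, Polynomial.map_mul, map_C,
          Polynomial.map_mul, hHred]
  have b3 : ∀ i, Bq (algebraMap K (AC K) (red K c)) ((E.map (red K)).map (algebraMap K (AC K)))
          (fun j => red (AC K) (r j)) i =
      C (algebraMap K (AC K) (red K c)) * (((E.map (red K)).map (algebraMap K (AC K))) *
        ∏ j ∈ Finset.univ.erase i, (X - C (red (AC K) (r j)))) := by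
    intro i; rw [Bq]
  have b4 : ∀ i j, i ≠ j → IsUnit (red (AC K) (r i) - red (AC K) (r j)) :=
    fun i j hij => isUnit_iff_ne_zero.mpr (sub_ne_zero.mpr fun h0 => hij (hrinj h0))
  have b5 : ∀ i, IsUnit (((E.map (red K)).map (algebraMap K (AC K))).eval (red (AC K) (r i))) :=
    fun i => isUnit_iff_ne_zero.mpr (heρ i)
  have b6 : 1 ≤ (((A₁ ^ 2 + X * B ^ 2).map (red K)).map (algebraMap K (AC K))).natDegree := by
    rw [(hm₁.map _).natDegree_map, hm₁.natDegree_map, hd₁]; omega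
  have b7 : 1 ≤ (((A₂ ^ 2 + X * B ^ 2).map (red K)).map (algebraMap K (AC K))).natDegree := by
    rw [(hm₂.map _).natDegree_map, hm₂.natDegree_map, hd₂]; omega
  have b8 : ((E.map (red K)).map (algebraMap K (AC K))) ^ 4 ∣
      (((Kp A₁ B).map (red K)).map (algebraMap K (AC K))) ^ 3 *
        (((A₂ ^ 2 + X * B ^ 2).map (red K)).map (algebraMap K (AC K))) -
      (((Kp A₂ B).map (red K)).map (algebraMap K (AC K))) ^ 3 *
        (((A₁ ^ 2 + X * B ^ 2).map (red K)).map (algebraMap K (AC K))) := by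
    rw [cross_map, cross_map]
    have := Polynomial.map_dvd (algebraMap K (AC K)) (Polynomial.map_dvd (red K) hdvd3)
    rw [Polynomial.map_pow, Polynomial.map_pow] at this
    exact this
  have b1 : algebraMap K (AC K) (red K c) ≠ 0 := by rw [← red_emb]; exact hch0
  have t1 := rtI_scaled (R := AC K) hrt 4 (by norm_num) (fun i => red (AC K) (r i))
    (algebraMap K (AC K) (red K c))
  have t3 := t1 ((E.map (red K)).map (algebraMap K (AC K)))
  have t4 := t3 (((A₁ ^ 2 + X * B ^ 2).map (red K)).map (algebraMap K (AC K)))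
    (((A₂ ^ 2 + X * B ^ 2).map (red K)).map (algebraMap K (AC K)))
  have t5 := t4 ((((Kp A₁ B).map (red K)).map (algebraMap K (AC K))) ^ 3)
    ((((Kp A₂ B).map (red K)).map (algebraMap K (AC K))) ^ 3) p₁ p₂
    ((B.map (red K)).map (algebraMap K (AC K)))
  have t6 := t5 (fun i => Bq (algebraMap K (AC K) (red K c))
    ((E.map (red K)).map (algebraMap K (AC K))) (fun j => red (AC K) (r j)) i) c4₁ c4₂
  have t7 := t6 b2
  have t8 := t7 b3 ((hE.map _).map _) ((hm₁.map _).map _) ((hm₂.map _).map _)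
  have t9 := t8 b4 b5 hEg₁ hEg₂ hg₁r hg₂r
  have t10 := t9 b6 b7 hp₁d hp₂d
  have t11 := t10 b8
  have t13 := t11 h41d h42d h41
  have hrt4 := t13 h42
  clear t1 t3 t4 t5 t6 t7 t8 t9 t10 t11 t13
  -- the terms at infinity
  obtain ⟨t, ht⟩ := inf_two c A₁ A₂ (E ^ 5 * U) B (E * H) hB hA₁m hA₁d hA₂m hA₂d hA₂ hEHm rfl
    hEHd hD1
  have hEHe : E.map (emb K) * ∏ i, (X - C (r i)) = (E * H).map (emb K) := by
    rw [Polynomial.map_mul, hr]
  have hinf2 : lc ((E.map (emb K) * ∏ i, (X - C (r i))) ^ 2 * (A₁ ^ 2 + X * B ^ 2).map (emb K))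
        (((Kp A₁ B).map (emb K)) ^ 2) -
      lc ((E.map (emb K) * ∏ i, (X - C (r i))) ^ 2 * (A₂ ^ 2 + X * B ^ 2).map (emb K))
        (((Kp A₂ B).map (emb K)) ^ 2) = 4 * emb K t := by
    rw [hEHe, ← Polynomial.map_pow, ← Polynomial.map_mul, ← Polynomial.map_mul,
      ← Polynomial.map_pow, ← Polynomial.map_pow, lc_map (emb K) ((hEHm.pow 2).mul hm₁),
      lc_map (emb K) ((hEHm.pow 2).mul hm₂), ← map_sub, ht, map_mul, map_ofNat]
  have hEHg : (E.map (red K)).map (algebraMap K (AC K)) * ∏ i, (X - C (red (AC K) (r i))) =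
      ((E * H).map (red K)).map (algebraMap K (AC K)) := by
    rw [← hHred, ← Polynomial.map_mul, ← Polynomial.map_mul]
  have hehm : ((E * H).map (red K)).Monic := hEHm.map _
  have hehd : ((E * H).map (red K)).natDegree < d := by rw [hEHm.natDegree_map]; exact hEHd
  have hinf4' := inf_four (red K c) hc (A₁.map (red K)) (A₂.map (red K)) ((E * H).map (red K))
    (hA₁m.map _) (by rw [hA₁m.natDegree_map]; exact hA₁d) (hA₂m.map _)
    (by rw [hA₂m.natDegree_map]; exact hA₂d) hehm hehd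
  have hgr₁ : (A₁ ^ 2 + X * B ^ 2).map (red K) =
      (A₁.map (red K)) ^ 2 + X * (C (red K c) * (E * H).map (red K)) ^ 2 := by
    rw [map_G, hBred]
  have hgr₂ : (A₂ ^ 2 + X * B ^ 2).map (red K) =
      (A₂.map (red K)) ^ 2 + X * (C (red K c) * (E * H).map (red K)) ^ 2 := by
    rw [map_G, hBred]
  have hkr₁ : (Kp A₁ B).map (red K) = Kp (A₁.map (red K)) (C (red K c) * (E * H).map (red K)) := by
    rw [map_Kp, hBred]
  have hkr₂ : (Kp A₂ B).map (red K) = Kp (A₂.map (red K)) (C (red K c) * (E * H).map (red K)) := by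
    rw [map_Kp, hBred]
  rw [← hgr₁, ← hgr₂, ← hkr₁, ← hkr₂] at hinf4'
  have hinf4 : lc (((E.map (red K)).map (algebraMap K (AC K)) *
          ∏ i, (X - C (red (AC K) (r i)))) ^ 4 *
          ((A₁ ^ 2 + X * B ^ 2).map (red K)).map (algebraMap K (AC K)))
        ((((Kp A₁ B).map (red K)).map (algebraMap K (AC K))) ^ 3) -
      lc (((E.map (red K)).map (algebraMap K (AC K)) *
          ∏ i, (X - C (red (AC K) (r i)))) ^ 4 *
          ((A₂ ^ 2 + X * B ^ 2).map (red K)).map (algebraMap K (AC K)))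
        ((((Kp A₂ B).map (red K)).map (algebraMap K (AC K))) ^ 3) =
      (algebraMap K (AC K) (red K c)) ^ 4 *
        (algebraMap K (AC K) (phi (red K c) ((E * H).map (red K)) (A₁.map (red K))) -
        algebraMap K (AC K) (phi (red K c) ((E * H).map (red K)) (A₂.map (red K)))) := by
    have p1 : ∀ F G : K[X], (F.map (algebraMap K (AC K))) ^ 4 *
        G.map (algebraMap K (AC K)) = (F ^ 4 * G).map (algebraMap K (AC K)) := by
      intro F G
      rw [Polynomial.map_mul, Polynomial.map_pow]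
    have p2 : ∀ G : K[X], (G.map (algebraMap K (AC K))) ^ 3 =
        (G ^ 3).map (algebraMap K (AC K)) := fun G => (Polynomial.map_pow _ _).symm
    rw [hEHg, p1, p1, p2, p2,
      lc_map (algebraMap K (AC K)) ((hehm.pow 4).mul (hm₁.map _)),
      lc_map (algebraMap K (AC K)) ((hehm.pow 4).mul (hm₂.map _)), ← map_sub, hinf4', map_mul,
      map_pow, map_sub]
  rw [hinf2] at hrt2
  rw [hinf4] at hrt4
  rw [← hP₁, ← hP₂] at hrt2
  rw [← hp₁, ← hp₂] at hrt4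
  -- `z`
  obtain ⟨z, hz⟩ : ∃ z, z = ∑ i, (v₁ i + v₂ i) + ℓ2₁ + ℓ2₂ := ⟨_, rfl⟩
  have hsum2 : ∑ i, ((c2₁ i).coeff (2 - 1) - (c2₂ i).coeff (2 - 1)) =
      2 * ∑ i, (v₁ i - v₂ i) := by
    rw [Finset.mul_sum]
    refine Finset.sum_congr rfl fun i _ => ?_
    have e1 := h21c i
    have e2 := h22c i
    rw [show 2 - 1 = 1 from rfl, e1, e2]
    ring
  have h8 : (8 : WittVector 2 (AC K)) ∣ N₁ - N₂ - 4 * z := by
    have hcu : IsUnit (emb K c) := by
      apply isUnit_iff_red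
      exact hch0
    obtain ⟨c', hc'⟩ := hcu.exists_right_inv
    refine ⟨c' ^ 2 * emb K t - (∑ i, v₁ i) - ℓ2₁ + (w₁ - w₂), ?_⟩
    have e1 : ∑ i, (v₁ i - v₂ i) = ∑ i, v₁ i - ∑ i, v₂ i := Finset.sum_sub_distrib _ _
    have e2 : ∑ i, (v₁ i + v₂ i) = ∑ i, v₁ i + ∑ i, v₂ i := Finset.sum_add_distrib
    rw [hsum2, e1] at hrt2
    rw [hz, e2]
    have hlam' := hlam
    unfold Kp at hlam'
    rw [hlam'] at hN₁
    generalize lc ((A₂ ^ 2 + X * B ^ 2).map (emb K))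
      ((A₂ * derivative A₂ + X * B * derivative B).map (emb K)) = l at hN₁ hN₂
    generalize ∑ i, v₁ i = s₁ at *
    generalize ∑ i, v₂ i = s₂ at *
    have hrt2' : ℓ1₁ - ℓ1₂ = 4 * (c' ^ 2 * emb K t) - 2 * (s₁ - s₂) := by
      linear_combination c' ^ 2 * hrt2 -
        ((ℓ1₁ - ℓ1₂) + 2 * (s₁ - s₂)) * (emb K c * c' + 1) * hc'
    linear_combination hN₁ - hN₂ + 2 * hrt2'
  -- the sign step
  have hpm₁ : ((-1) ^ n * mob ((A₁ ^ 2 + X * B ^ 2).map (red K)) : ℤ) = 1 ∨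
      ((-1) ^ n * mob ((A₁ ^ 2 + X * B ^ 2).map (red K)) : ℤ) = -1 := by
    have hsf : Squarefree ((A₁ ^ 2 + X * B ^ 2).map (red K)) := by
      rw [map_G]; exact squarefree_f _ _ hab₁
    rcases mob_pm hsf with h | h <;> rcases neg_one_pow_eq_or ℤ n with h' | h' <;> rw [h, h'] <;>
      norm_num
  have hpm₂ : ((-1) ^ n * mob ((A₂ ^ 2 + X * B ^ 2).map (red K)) : ℤ) = 1 ∨
      ((-1) ^ n * mob ((A₂ ^ 2 + X * B ^ 2).map (red K)) : ℤ) = -1 := by
    have hsf : Squarefree ((A₂ ^ 2 + X * B ^ 2).map (red K)) := by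
      rw [map_G]; exact squarefree_f _ _ hab₂
    rcases mob_pm hsf with h | h <;> rcases neg_one_pow_eq_or ℤ n with h' | h' <;> rw [h, h'] <;>
      norm_num
  obtain ⟨x, hx, hxc⟩ := sign_step (V₁ * Y₂) (V₂ * Y₁) N₁ N₂ z _ _ hpm₁ hpm₂
    (by rw [map_mul, hV₁, hY₂]; ring) (by rw [map_mul, hV₂, hY₁]; ring)
    (by rw [map_mul]; exact mul_ne_zero hV₂0 hY₁0)
    (by
      have e1 : V₁ ^ 2 * (Y₂ ^ 2 * N₂) = V₂ ^ 2 * (Y₁ ^ 2 * N₁) := by
        rw [← hVY₁, ← hVY₂]; ring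
      linear_combination e1)
    hN₂r h8
  have hsgn : ((-1) ^ n * mob ((A₁ ^ 2 + X * B ^ 2).map (red K)) : ℤ) *
      ((-1) ^ n * mob ((A₂ ^ 2 + X * B ^ 2).map (red K)) : ℤ) =
      mob ((A₁ ^ 2 + X * B ^ 2).map (red K)) * mob ((A₂ ^ 2 + X * B ^ 2).map (red K)) := by
    have : ((-1 : ℤ) ^ n) * (-1) ^ n = 1 := by
      rw [← mul_pow]; norm_num
    linear_combination (mob ((A₁ ^ 2 + X * B ^ 2).map (red K)) *
      mob ((A₂ ^ 2 + X * B ^ 2).map (red K))) * this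
  rw [hsgn] at hxc
  refine ⟨H.natDegree, fun i => red (AC K) (r i), x, hrinj, hHred, ?_, ?_, hxc⟩
  · intro i
    obtain ⟨j, hj⟩ := hrperm i
    exact ⟨j, by rw [← red_frobLift, hj]⟩
  · rw [hx, hz]
    have hch1 : (algebraMap K (AC K) (red K c)) ^ 4 ≠ 0 := pow_ne_zero 4 b1
    have hrt4' : red (AC K) ℓ2₁ - red (AC K) ℓ2₂ =
        (algebraMap K (AC K) (phi (red K c) ((E * H).map (red K)) (A₁.map (red K))) -
        algebraMap K (AC K) (phi (red K c) ((E * H).map (red K)) (A₂.map (red K)))) -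
        ∑ i, ((c4₁ i).coeff (4 - 1) - (c4₂ i).coeff (4 - 1)) := by
      apply mul_left_cancel₀ hch1
      rw [hrt4]; ring
    generalize phi (red K c) ((E * H).map (red K)) (A₁.map (red K)) = φ₁ at hrt4' ⊢
    generalize phi (red K c) ((E * H).map (red K)) (A₂.map (red K)) = φ₂ at hrt4' ⊢
    simp only [map_add, map_sum]
    have e3 : ∀ f : Fin H.natDegree → AC K, (∑ i, f i) ^ 2 = ∑ i, (f i) ^ 2 := fun f =>
      sum_pow_char 2 Finset.univ f
    rw [e3, ← add_assoc, ← Finset.sum_add_distrib, ← Finset.sum_add_distrib]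
    have e4 : ∑ i, (red (AC K) (v₁ i) + red (AC K) (v₂ i)) + red (AC K) ℓ2₁ + red (AC K) ℓ2₂ =
        ∑ i, ((red (AC K) (v₁ i) + (c4₁ i).coeff 3) + (red (AC K) (v₂ i) + (c4₂ i).coeff 3)) +
          (algebraMap K (AC K) φ₁ + algebraMap K (AC K) φ₂) := by
      have e5 : ∑ i, ((c4₁ i).coeff (4 - 1) - (c4₂ i).coeff (4 - 1)) =
        ∑ i, (c4₁ i).coeff 3 - ∑ i, (c4₂ i).coeff 3 := Finset.sum_sub_distrib _ _
      rw [e5] at hrt4'
      simp only [Finset.sum_add_distrib]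
      linear_combination hrt4' + (red (AC K) ℓ2₂ - ∑ i, (c4₁ i).coeff 3 -
        algebraMap K (AC K) φ₂) * h2AC
    rw [e4]
    congr 1
    refine Finset.sum_congr rfl fun i _ => ?_
    rw [hloc₁ i, hloc₂ i]
    linear_combination (-(yloc (A₁.map (red K)) (B.map (red K)) (red (AC K) (r i)) *
      yloc (A₂.map (red K)) (B.map (red K)) (red (AC K) (r i)))) * h2AC

/-- **The key formula for `deg a > deg b`.** -/
theorem keyI (hs : S_sgn) (hrt : S_rtI) : S_keyI := by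
  intro K _ _ _ d c a₁ a₂ e h hc he hh hcop hsq ha₁ hd₁ ha₂ hd₂ hehd hc₁ hc₂ hdvd hdeg
  classical
  obtain ⟨u, hu⟩ := hdvd
  -- lifts
  obtain ⟨E, hE⟩ : ∃ E, E = tl e := ⟨_, rfl⟩
  obtain ⟨H, hH⟩ : ∃ H, H = tl h := ⟨_, rfl⟩
  obtain ⟨U, hU⟩ : ∃ U, U = tl u := ⟨_, rfl⟩
  obtain ⟨A₁, hA₁⟩ : ∃ A, A = tl a₁ := ⟨_, rfl⟩
  obtain ⟨A₂, hA₂⟩ : ∃ A, A = A₁ + E ^ 5 * U := ⟨_, rfl⟩
  obtain ⟨B, hB⟩ : ∃ B, B = C (WittVector.teichmuller 2 c) * (E * H) := ⟨_, rfl⟩
  have hEm : E.Monic := hE ▸ tl_monic he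
  have hHm : H.Monic := hH ▸ tl_monic hh
  have hEd : E.natDegree = e.natDegree := hE ▸ natDegree_tl he
  have hHd : H.natDegree = h.natDegree := hH ▸ natDegree_tl hh
  have hEr : E.map (red K) = e := hE ▸ map_tl e
  have hHr : H.map (red K) = h := hH ▸ map_tl h
  have hUr : U.map (red K) = u := hU ▸ map_tl u
  have hA₁r : A₁.map (red K) = a₁ := hA₁ ▸ map_tl a₁
  have hA₁m : A₁.Monic := hA₁ ▸ tl_monic ha₁
  have hA₁d : A₁.natDegree = d := by rw [hA₁, natDegree_tl ha₁, hd₁]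
  have hcr : red K (WittVector.teichmuller 2 c) = c := WittVector.teichmuller_coeff_zero 2 _
  have hA₂r : A₂.map (red K) = a₂ := by
    rw [hA₂, Polynomial.map_add, Polynomial.map_mul, Polynomial.map_pow, hA₁r, hEr, hUr]
    linear_combination -hu
  have hBr : B.map (red K) = C c * (e * h) := by
    rw [hB, Polynomial.map_mul, Polynomial.map_mul, map_C, hEr, hHr, hcr]
  have hEHr : (E * H).map (red K) = e * h := by rw [Polynomial.map_mul, hEr, hHr]
  have hG₁r : (A₁ ^ 2 + X * B ^ 2).map (red K) = a₁ ^ 2 + X * (C c * (e * h)) ^ 2 := by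
    rw [map_G, hA₁r, hBr]
  have hG₂r : (A₂ ^ 2 + X * B ^ 2).map (red K) = a₂ ^ 2 + X * (C c * (e * h)) ^ 2 := by
    rw [map_G, hA₂r, hBr]
  -- degrees
  have hEHd : (E * H).natDegree = (e * h).natDegree := by
    rw [hEm.natDegree_mul hHm, hEd, hHd, he.natDegree_mul hh]
  have hDn : (E ^ 5 * U).natDegree ≤ (e * h).natDegree := by
    by_cases hu0 : u = 0
    · rw [hU, hu0, tl_zero, mul_zero, natDegree_zero]; omega
    · have e1 : (E ^ 5 * U).natDegree ≤ 5 * E.natDegree + U.natDegree := by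
        refine natDegree_mul_le.trans ?_
        have := natDegree_pow_le (p := E) (n := 5)
        omega
      have e2 : (a₂ - a₁).natDegree = 5 * e.natDegree + u.natDegree := by
        rw [hu, natDegree_mul (pow_ne_zero 5 he.ne_zero) hu0, natDegree_pow]
      have e3 : U.natDegree ≤ u.natDegree := hU ▸ natDegree_tl_le u
      omega
  have hA₂m : A₂.Monic := by
    rw [hA₂]
    apply hA₁m.add_of_left
    apply degree_lt_degree
    omega
  have hA₂d : A₂.natDegree = d := by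
    rw [hA₂, natDegree_add_eq_left_of_natDegree_lt, hA₁d]
    omega
  obtain ⟨m, ρ, x, hρ, hprod, hperm, hx, hxc⟩ := key_coreI hs hrt d
    (WittVector.teichmuller 2 c) (by rw [hcr]; exact hc) A₁ A₂ E H U B hA₂ hB hEm hHm
    (by rw [hEr, hHr]; exact hcop) (by rw [hHr]; exact hsq) hA₁m hA₁d hA₂m hA₂d
    (by rw [hEHd]; exact hehd)
    (by rw [hA₁r, hEHr]; exact hc₁) (by rw [hA₂r, hEHr]; exact hc₂)
    (by rw [hEHd]; exact hDn)
  rw [hHr] at hprod
  rw [hG₁r, hG₂r] at hxc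
  rw [hA₁r, hA₂r, hBr, hcr, hEHr] at hx
  have hy := frob_sum ρ hρ hperm (fun t => yloc a₁ (C c * (e * h)) t + yloc a₂ (C c * (e * h)) t)
    (fun t => by
      rw [← frob_apply, map_add, frob_apply, frob_apply, frob_yloc, frob_yloc])
  have hw := frob_sum ρ hρ hperm (fun t => Wr a₁ (C c * (e * h)) t + Wr a₂ (C c * (e * h)) t)
    (fun t => by
      rw [← frob_apply, map_add, frob_apply, frob_apply, frob_Wr, frob_Wr])
  obtain ⟨φ, hφ⟩ : ∃ φ, φ = phi c (e * h) a₁ + phi c (e * h) a₂ := ⟨_, rfl⟩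
  rw [← hφ] at hx
  have hw' : (∑ i, (Wr a₁ (C c * (e * h)) (ρ i) + Wr a₂ (C c * (e * h)) (ρ i)) +
      algebraMap K (AC K) φ) ^ Fintype.card K =
      ∑ i, (Wr a₁ (C c * (e * h)) (ρ i) + Wr a₂ (C c * (e * h)) (ρ i)) +
      algebraMap K (AC K) φ := by
    rw [← frob_apply, map_add, frob_apply, frob_apply, hw, ← map_pow, FiniteField.pow_card]
  obtain ⟨w, hw1, hw2⟩ := last_step x _ _ _ _ rfl hx hy hw' hxc
  have h2K : (2 : K) = 0 := two_K
  refine ⟨w + φ, ?_, ?_⟩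
  · rw [map_add, hw1, sum_roots h hh ρ hρ hprod]
    have h2AC : (2 : AC K) = 0 := two_AC
    linear_combination (algebraMap K (AC K) φ) * h2AC
  · have e1 : w + φ + (phi c (e * h) a₁ + phi c (e * h) a₂) = w := by
      rw [← hφ]
      linear_combination φ * h2K
    rw [e1]
    rcases hw2 with ⟨h1, h2⟩ | ⟨h1, h2⟩
    · rw [h1, if_pos h2]
    · rw [h1, if_neg h2]

end Pool.Agent.H524.SQ
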